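import Pool.Agent.Run7.h32.EE.Eq
import Pool.Agent.Run7.h32.EE.Lost

/-!
# The energy equality for the dyadic model of the Navier-Stokes equations: the sharp threshold

The dyadic model (Katz-Pavlović, Friedlander-Pavlović, Cheskidov, Barbato-Morandin-Romito) is
`X_n' = 2^(β (n-1)) X_{n-1}² - 2^(β n) X_n X_{n+1} - ν 4^n X_n`, `n ≥ 0`, `X_{-1} = 0`.
The nonlinear term preserves the energy `∑ X_n²` formally, and `β = 5 / 2` is the scaling of the
three-dimensional equations.  For `β ≤ 3` all the Leray-Hopf solutions satisfy the energy equality;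
for `β > 3` it fails for all large data, and almost all the energy is lost without being dissipated
by the viscosity.
-/

set_option autoImplicit false

open MeasureTheory

namespace Pool.Agent.Run7.h32.Kept.EnergyEqualityThreshold

/-- The right hand side of the dyadic model. -/
noncomputable def dyadicRhs (β ν : ℝ) (x : ℕ → ℝ) : ℕ → ℝ
  | 0 => -(x 0 * x 1) - ν * x 0
  | n + 1 => (2 : ℝ) ^ (β * n) * x n ^ 2 - (2 : ℝ) ^ (β * (n + 1)) * (x (n + 1) * x (n + 2))
      - ν * 4 ^ (n + 1) * x (n + 1)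

/-- `X` is a (componentwise) solution on `[0, ∞)` with the initial value `x`. -/
structure IsSolution (β ν : ℝ) (x : ℕ → ℝ) (X : ℕ → ℝ → ℝ) : Prop where
  initial : ∀ n, X n 0 = x n
  continuous : ∀ n, ContinuousOn (X n) (Set.Ici 0)
  equation : ∀ n, ∀ t : ℝ, 0 < t → HasDerivAt (X n) (dyadicRhs β ν (fun k => X k t) n) t

/-- The energy inequality from the time `s`: `X(s)` is square summable and
`∑ X_n(t)² + 2 ν ∫_s^t ∑ 4^n X_n² ≤ ∑ X_n(s)²` for all `t ≥ s`. -/
def EnergyInequality (ν : ℝ) (X : ℕ → ℝ → ℝ) (s : ℝ) : Prop :=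
  Summable (fun n => X n s ^ 2) ∧ ∀ t, s ≤ t → ∀ N : ℕ,
    ∑ n ∈ Finset.range N, X n t ^ 2 + 2 * ν * ∫ r in s..t, ∑ n ∈ Finset.range N, 4 ^ n * X n r ^ 2
      ≤ ∑' n, X n s ^ 2

/-- A Leray-Hopf solution with the initial value `x`: the energy inequality holds from the time
`0` and from almost every positive time. -/
structure IsLerayHopf (β ν : ℝ) (x : ℕ → ℝ) (X : ℕ → ℝ → ℝ) : Prop where
  solution : IsSolution β ν x X
  energy_zero : EnergyInequality ν X 0
  energy_ae : ∀ᵐ s : ℝ, 0 < s → EnergyInequality ν X s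

/-- The energy equality `∑ X_n(t)² + 2 ν ∫_0^t ∑ 4^n X_n² = ∑ X_n(0)²` for all `t ≥ 0`. -/
def EnergyEquality (ν : ℝ) (X : ℕ → ℝ → ℝ) : Prop :=
  ∀ t, 0 ≤ t → HasSum (fun n => X n t ^ 2 + 2 * ν * ∫ r in (0 : ℝ)..t, 4 ^ n * X n r ^ 2)
    (∑' n, X n 0 ^ 2)

lemma rhs_eq (β ν : ℝ) (x : ℕ → ℝ) (n : ℕ) : dyadicRhs β ν x n = Run7.h969.Dy.rhs β ν x n := by
  cases n <;> rfl

lemma sol_iff {β ν : ℝ} {x : ℕ → ℝ} {X : ℕ → ℝ → ℝ} :
    IsSolution β ν x X ↔ Run7.h969.Dy.IsDy β ν x X := by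
  constructor
  · intro h
    exact ⟨h.initial, h.continuous, fun n t ht => (h.equation n t ht).congr_deriv (rhs_eq _ _ _ _)⟩
  · intro h
    exact ⟨h.init, h.cont, fun n t ht => (h.ode n t ht).congr_deriv (rhs_eq _ _ _ _).symm⟩

lemma lh_iff {β ν : ℝ} {x : ℕ → ℝ} {X : ℕ → ℝ → ℝ} :
    IsLerayHopf β ν x X ↔ Run7.h969.Dz.LH β ν x X := by
  constructor
  · intro h
    exact ⟨sol_iff.1 h.solution, h.energy_zero, h.energy_ae⟩
  · intro h
    exact ⟨sol_iff.2 h.sol, h.en0, h.en⟩

lemma lh_of_sol {β ν E : ℝ} {x : ℕ → ℝ} {X : ℕ → ℝ → ℝ} (S : Run7.h32.On.Sol β ν E x X) :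
    IsLerayHopf β ν x X := by
  have h : ∀ s, 0 ≤ s → EnergyInequality ν X s := by
    intro s hs
    have hsum : Summable fun n => X n s ^ 2 :=
      summable_of_sum_range_le (c := E) (fun n => sq_nonneg _) fun N => S.sum_le N hs
    refine ⟨hsum, fun t ht N => (Run7.h32.EE.energy_anti S N hs ht).trans ?_⟩
    exact hsum.sum_le_tsum _ fun n _ => sq_nonneg _
  exact ⟨sol_iff.2 S.dy, h 0 le_rfl, Filter.Eventually.of_forall fun s hs => h s hs.le⟩

/-- Let `ν > 0`.
1. Let `β ≤ 3` and let `x` be a square summable real sequence (no sign condition). There is a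
   Leray-Hopf solution with the initial value `x`, and every one satisfies the energy equality.
2. Let `β > 3`, and let `x ≠ 0` be nonnegative and square summable. For all large `M` the initial
   value `M x` has exactly one solution `X`; it is a Leray-Hopf solution, and it violates the energy
   equality. For every `ε > 0` there is `T` such that for all large `M` the energy and the
   dissipated energy together are at most `ε ∑ (M x_n)²` from the time `T / M` on. -/
theorem result (β ν : ℝ) (hν : 0 < ν) :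
    (β ≤ 3 → ∀ x : ℕ → ℝ, (Summable fun n => x n ^ 2) →
      (∃ X, IsLerayHopf β ν x X) ∧ ∀ X, IsLerayHopf β ν x X → EnergyEquality ν X) ∧
    (3 < β → ∀ x : ℕ → ℝ, (∀ n, 0 ≤ x n) → (Summable fun n => x n ^ 2) → x ≠ 0 → ∀ ε > 0,
      ∃ M₀ > 0, ∃ T > 0, ∀ M ≥ M₀, ∃ X, IsLerayHopf β ν (fun n => M * x n) X ∧
        (∀ Z, IsSolution β ν (fun n => M * x n) Z → ∀ n t, 0 ≤ t → Z n t = X n t) ∧
        ¬ EnergyEquality ν X ∧
        ∀ t, T / M ≤ t → ∀ N : ℕ, ∑ n ∈ Finset.range N, X n t ^ 2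
          + 2 * ν * ∫ r in (0 : ℝ)..t, ∑ n ∈ Finset.range N, 4 ^ n * X n r ^ 2
            ≤ ε * ∑' n, (M * x n) ^ 2) := by
  constructor
  · intro hβ x hx
    obtain ⟨X, hX⟩ := Run7.h969.Dz.exist_lh (β := β) hν hx
    exact ⟨⟨X, lh_iff.2 hX⟩, fun X hX t ht => Run7.h32.EE.ee_lh hν hβ (lh_iff.1 hX) ht⟩
  · intro hβ x hx0 hx hne ε hε
    obtain ⟨E, hE⟩ : ∃ E, E = ∑' n, x n ^ 2 := ⟨_, rfl⟩
    have hEN : ∀ N : ℕ, ∑ n ∈ Finset.range N, x n ^ 2 ≤ E := fun N => by
      rw [hE]
      exact hx.sum_le_tsum _ fun n _ => sq_nonneg _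
    have hE0 : 0 < E := by
      obtain ⟨n, hn⟩ : ∃ n, x n ≠ 0 := by
        by_contra h
        push Not at h
        exact hne (funext h)
      rw [hE]
      exact hx.tsum_pos (fun n => sq_nonneg _) n (by positivity)
    obtain ⟨δ, hδ⟩ : ∃ δ, δ = min ε (1 / 2) * E := ⟨_, rfl⟩
    have hm : 0 < min ε (1 / 2) := lt_min hε (by norm_num)
    have hδ0 : 0 < δ := by rw [hδ]; positivity
    obtain ⟨μ0, hμ0, T, hT, hl⟩ := Run7.h32.EE.lost hβ hx0 hx hδ0
    refine ⟨ν / μ0, by positivity, T, hT, fun M hM => ?_⟩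
    have hM0 : 0 < M := lt_of_lt_of_le (by positivity) hM
    have hMx0 : ∀ n, 0 ≤ M * x n := fun n => mul_nonneg hM0.le (hx0 n)
    have hMx : Summable fun n => (M * x n) ^ 2 := by
      simp only [mul_pow]
      exact hx.mul_left _
    have hsum : ∑' n, (M * x n) ^ 2 = M ^ 2 * E := by
      simp only [mul_pow]
      rw [tsum_mul_left, hE]
    obtain ⟨X, hX⟩ := Run7.h32.On.exist_l2' β hν.le hMx0 hMx
    have S : Run7.h32.On.Sol β ν (∑' n, (M * x n) ^ 2) (fun n => M * x n) X :=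
      ⟨hν.le, hMx0, fun N => hMx.sum_le_tsum _ fun n _ => sq_nonneg _, hX⟩
    have hlost : ∀ t, T / M ≤ t → ∀ N : ℕ, ∑ n ∈ Finset.range N, X n t ^ 2
        + 2 * ν * ∫ r in (0 : ℝ)..t, ∑ n ∈ Finset.range N, (4 : ℝ) ^ n * X n r ^ 2
          ≤ min ε (1 / 2) * (M ^ 2 * E) := by
      intro t ht N
      have SY := Run7.h32.EE.scaling (E := ∑' n, x n ^ 2) hM0 hx0 (by rw [← hE]; exact hEN) S
      have hμ : ν / M ≤ μ0 := by
        rw [ge_iff_le, div_le_iff₀ hμ0] at hM
        rw [div_le_iff₀ hM0]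
        linarith
      rw [div_le_iff₀ hM0] at ht
      have h1 := hl (ν / M) _ hμ SY (t * M) ht N
      have h2 : t * M / M = t := by field_simp
      have h3 : ∫ r in (0 : ℝ)..(t * M), ∑ n ∈ Finset.range N, (4 : ℝ) ^ n * (X n (r / M) / M) ^ 2
          = M * ∫ r in (0 : ℝ)..t, ∑ n ∈ Finset.range N, (4 : ℝ) ^ n * (X n r / M) ^ 2 := by
        rw [intervalIntegral.integral_comp_div
          (fun r => ∑ n ∈ Finset.range N, (4 : ℝ) ^ n * (X n r / M) ^ 2) hM0.ne', zero_div, h2,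
          smul_eq_mul]
      rw [h3] at h1
      simp only [h2] at h1
      have h4 : ∫ r in (0 : ℝ)..t, ∑ n ∈ Finset.range N, (4 : ℝ) ^ n * (X n r / M) ^ 2
          = (∫ r in (0 : ℝ)..t, ∑ n ∈ Finset.range N, (4 : ℝ) ^ n * X n r ^ 2) / M ^ 2 := by
        rw [← intervalIntegral.integral_div]
        congr 1
        funext r
        rw [Finset.sum_div]
        refine Finset.sum_congr rfl fun n _ => ?_
        rw [div_pow, mul_div_assoc]
      have h5 : ∑ n ∈ Finset.range N, (X n t / M) ^ 2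
          = (∑ n ∈ Finset.range N, X n t ^ 2) / M ^ 2 := by
        rw [Finset.sum_div]
        refine Finset.sum_congr rfl fun n _ => ?_
        rw [div_pow]
      rw [h4, h5, hδ] at h1
      have h6 := mul_le_mul_of_nonneg_right h1 (sq_nonneg M)
      calc _ = ((∑ n ∈ Finset.range N, X n t ^ 2) / M ^ 2 + 2 * (ν / M) * (M *
            ((∫ r in (0 : ℝ)..t, ∑ n ∈ Finset.range N, (4 : ℝ) ^ n * X n r ^ 2) / M ^ 2)))
            * M ^ 2 := by field_simp
        _ ≤ _ := h6
        _ = _ := by ring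
    refine ⟨X, lh_of_sol S, ?_, ?_, ?_⟩
    · intro Z hZ n t ht
      have SZ : Run7.h32.On.Sol β ν (∑' n, (M * x n) ^ 2) (fun n => M * x n) Z :=
        ⟨hν.le, hMx0, fun N => hMx.sum_le_tsum _ fun n _ => sq_nonneg _, sol_iff.1 hZ⟩
      exact Run7.h32.On.unique' (by linarith) S SZ n t ht
    · intro hEE
      have ht : 0 ≤ T / M := by positivity
      have h1 := (hEE (T / M) ht).tendsto_sum_nat
      have h2 : ∑' n, X n 0 ^ 2 = M ^ 2 * E := by
        rw [← hsum]
        congr 1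
        funext n
        rw [hX.init n]
      rw [h2] at h1
      have h3 : M ^ 2 * E ≤ 1 / 2 * (M ^ 2 * E) := by
        refine le_of_tendsto' h1 fun N => ?_
        have h4 := hlost (T / M) le_rfl N
        have h5 : ∑ n ∈ Finset.range N,
            (X n (T / M) ^ 2 + 2 * ν * ∫ r in (0 : ℝ)..(T / M), 4 ^ n * X n r ^ 2)
            = ∑ n ∈ Finset.range N, X n (T / M) ^ 2
              + 2 * ν * ∫ r in (0 : ℝ)..(T / M), ∑ n ∈ Finset.range N, (4 : ℝ) ^ n * X n r ^ 2 := by
          rw [Finset.sum_add_distrib, ← Finset.mul_sum, intervalIntegral.integral_finsetSum]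
          intro n _
          refine ContinuousOn.intervalIntegrable ?_
          rw [Set.uIcc_of_le ht]
          exact continuousOn_const.mul (((hX.cont n).mono fun r hr => hr.1).pow 2)
        rw [h5]
        refine h4.trans ?_
        exact mul_le_mul_of_nonneg_right (min_le_right _ _) (by positivity)
      have h6 : 0 < M ^ 2 * E := by positivity
      linarith
    · intro t ht N
      rw [hsum]
      exact (hlost t ht N).trans
        (mul_le_mul_of_nonneg_right (min_le_left _ _) (by positivity))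

end Pool.Agent.Run7.h32.Kept.EnergyEqualityThreshold
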