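import Pool.Agent.Run7.h32.Fo.Final

/-!
MP_fd8964_an, Q1 for the dyadic (shell) model of the Navier-Stokes equations with a force.

The sequence `X(t)` of the shell amplitudes solves
`Xₙ' = 2^(β(n-1)) Xₙ₋₁² - 2^(βn) Xₙ Xₙ₊₁ - ν 4ⁿ Xₙ + fₙ`; `H`, `V`, `V ∩ H²` and `V'` are the
spaces of the sequences with `∑ xₙ²`, `∑ 4ⁿ xₙ²`, `∑ 16ⁿ xₙ²` and `∑ 4⁻ⁿ xₙ²` finite. The scaling of
the space dimension `d` is `β = 1 + d/2`, so that `β = 5/2` for `d = 3`.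
-/

set_option autoImplicit false

open Set MeasureTheory

namespace Pool.Agent.Results.MP_fd8964_an.ForcedDyadic

/-- The vector field of the dyadic model with the viscosity `ν` and the scaling exponent `β`. -/
noncomputable def field (β ν : ℝ) (y : ℕ → ℝ) : ℕ → ℝ
  | 0 => -(y 0 * y 1) - ν * y 0
  | n + 1 => (2 : ℝ) ^ (β * n) * y n ^ 2
      - (2 : ℝ) ^ (β * (n + 1)) * (y (n + 1) * y (n + 2)) - ν * 4 ^ (n + 1) * y (n + 1)

/-- `Y ∈ L^∞(0, T; H)` for every `T`. -/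
def LinftyH (Y : ℕ → ℝ → ℝ) : Prop :=
  ∀ T : ℝ, 0 < T → ∃ C : ℝ, ∀ t ∈ Icc 0 T, Summable (fun n => Y n t ^ 2) ∧ ∑' n, Y n t ^ 2 ≤ C

/-- `Y ∈ L²(0, T; V)` for every `T`. -/
def L2V (Y : ℕ → ℝ → ℝ) : Prop :=
  ∀ T : ℝ, 0 < T → (∀ n, IntervalIntegrable (fun t => Y n t ^ 2) volume 0 T) ∧
    Summable fun n => (4 : ℝ) ^ n * ∫ t in (0 : ℝ)..T, Y n t ^ 2

/-- Admissible data: `x ∈ V ∩ H²`, `f(0) ∈ H`, and `f` has a time derivative `g` which is in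
`L²(0, T; V')` for every `T` (so that `f ∈ L²(0, T; V')` too). -/
structure Admissible (x : ℕ → ℝ) (f : ℕ → ℝ → ℝ) : Prop where
  data : Summable fun n => (16 : ℝ) ^ n * x n ^ 2
  force_zero : Summable fun n => f n 0 ^ 2
  force : ∃ g : ℕ → ℝ → ℝ, (∀ n t, 0 ≤ t → f n t = f n 0 + ∫ s in (0 : ℝ)..t, g n s) ∧
    ∀ T : ℝ, 0 < T → (∀ n, MemLp (g n) 2 (volume.restrict (Ioc 0 T))) ∧
      Summable fun n => (∫ t in (0 : ℝ)..T, g n t ^ 2) / 4 ^ n

/-- `X` solves the equations of all the shells on `[0, ∞)` and `X(0) = x`. -/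
structure Solves (β ν : ℝ) (x : ℕ → ℝ) (f X : ℕ → ℝ → ℝ) : Prop where
  init : ∀ n, X n 0 = x n
  eqn : ∀ n t, 0 ≤ t →
    HasDerivWithinAt (X n) (field β ν (fun k => X k t) n + f n t) (Ici 0) t

/-- A Leray-Hopf solution: in `L^∞(0, T; H) ∩ L²(0, T; V)` for every `T`, with the energy
inequality. -/
structure LerayHopf (β ν : ℝ) (x : ℕ → ℝ) (f X : ℕ → ℝ → ℝ) : Prop where
  solves : Solves β ν x f X
  linftyH : LinftyH X
  l2V : L2V X
  energy : ∀ t : ℝ, 0 ≤ t →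
    ∑' n, X n t ^ 2 + 2 * ν * ∑' n, (4 : ℝ) ^ n * ∫ s in (0 : ℝ)..t, X n s ^ 2
      ≤ ∑' n, x n ^ 2 + 2 * ∑' n, ∫ s in (0 : ℝ)..t, f n s * X n s

open Pool.Agent.Run7.h32.Fo in
/-- **Global regularity of the forced dyadic model.** For all `β < 3`, every viscosity, all real
admissible data (no sign, no smallness) there is a Leray-Hopf solution `X` on `[0, ∞)` with the
energy equality and `∂ₜX ∈ L²(0, T; V) ∩ L^∞(0, T; H)` for every `T`, and it is the only Leray-Hopf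
solution. -/
theorem result (β ν : ℝ) (hβ : β < 3) (hν : 0 < ν) (x : ℕ → ℝ) (f : ℕ → ℝ → ℝ)
    (hxf : Admissible x f) :
    ∃ X : ℕ → ℝ → ℝ, LerayHopf β ν x f X ∧
      (∀ t : ℝ, 0 ≤ t →
        ∑' n, X n t ^ 2 + 2 * ν * ∑' n, (4 : ℝ) ^ n * ∫ s in (0 : ℝ)..t, X n s ^ 2
          = ∑' n, x n ^ 2 + 2 * ∑' n, ∫ s in (0 : ℝ)..t, f n s * X n s) ∧
      LinftyH (fun n t => field β ν (fun k => X k t) n + f n t) ∧
      L2V (fun n t => field β ν (fun k => X k t) n + f n t) ∧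
      ∀ Z : ℕ → ℝ → ℝ, LerayHopf β ν x f Z → ∀ (n : ℕ) (t : ℝ), 0 ≤ t → Z n t = X n t := by
  have hfield : ∀ y : ℕ → ℝ, ∀ n, field β ν y n = Run7.h969.Dy.rhs β ν y n := by
    intro y n
    cases n <;> rfl
  obtain ⟨hx, hf0, g, hfg, hg⟩ := hxf
  have hgi : ∀ T n, 0 ≤ T → IntervalIntegrable (g n) volume 0 T := by
    intro T n hT
    rcases hT.eq_or_lt with h | h
    · rw [← h]
    · rw [intervalIntegrable_iff_integrableOn_Ioc_of_le hT]
      exact ((hg T h).1 n).integrable (by norm_num)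
  have hgi2 : ∀ T n, 0 ≤ T → IntervalIntegrable (fun t => g n t ^ 2) volume 0 T := by
    intro T n hT
    rcases hT.eq_or_lt with h | h
    · rw [← h]
    · rw [intervalIntegrable_iff_integrableOn_Ioc_of_le hT]
      exact ((hg T h).1 n).integrable_sq
  have had : Adm x f g := by
    refine ⟨hx, hf0, hgi, hgi2, hfg, fun T hT => ?_⟩
    rcases hT.eq_or_lt with h | h
    · rw [← h]
      simp
    · exact (hg T h).2
  obtain ⟨s, hs0, hs, X, hX, hB⟩ := exists_strong hβ hν had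
  have hcV : ∀ T : ℝ, 0 < T → ∀ n, ContinuousOn
      (fun t => Run7.h969.Dy.rhs β ν (fun k => X k t) n + f n t) (Icc 0 T) := fun T hT n =>
    (Pool.Agent.Run7.h32.Dy.rhs_cont (fun n => hX.cont n) n).add (had.fcont hT.le n)
  have hx2 : Summable fun n => x n ^ 2 := by
    obtain ⟨R, hR0, _, _, h2, _⟩ := had.bounds zero_le_one
    exact (tsum_bd (fun n => sq_nonneg _) h2).1
  have hXS : Solves β ν x f X := ⟨hX.init, fun n t ht => by
    rw [hfield]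
    exact hX.ode n t ht⟩
  have hXH : LinftyH X := by
    intro T hT
    obtain ⟨D, hD0, -, h2, -⟩ := hB T hT
    exact ⟨D, fun t ht => tsum_bd (fun n => sq_nonneg _) (h2 t ht)⟩
  have hl2 : ∀ {Y : ℕ → ℝ → ℝ} {T D : ℝ}, 0 < T → (∀ n, ContinuousOn (Y n) (Icc 0 T)) →
      (∀ M : ℕ, ∫ s in (0 : ℝ)..T, ∑ n ∈ Finset.range M, 4 ^ n * Y n s ^ 2 ≤ D) →
      (∀ n, IntervalIntegrable (fun t => Y n t ^ 2) volume 0 T) ∧
        Summable fun n => (4 : ℝ) ^ n * ∫ t in (0 : ℝ)..T, Y n t ^ 2 := by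
    intro Y T D hT hc h
    refine ⟨fun n => ii_of ((hc n).pow 2) ⟨le_rfl, hT.le⟩ ⟨hT.le, le_rfl⟩, ?_⟩
    refine (tsum_bd (D := D) (fun n => mul_nonneg (by positivity)
      (intervalIntegral.integral_nonneg hT.le fun s _ => sq_nonneg _)) fun M => ?_).1
    rw [← int_sum4 hc ⟨hT.le, le_rfl⟩ M]
    exact h M
  have hXV : L2V X := by
    intro T hT
    obtain ⟨D, hD0, -, -, h3, -⟩ := hB T hT
    exact hl2 hT (fun n => hX.cont n) h3
  have heq : ∀ t : ℝ, 0 ≤ t →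
      ∑' n, X n t ^ 2 + 2 * ν * ∑' n, (4 : ℝ) ^ n * ∫ s in (0 : ℝ)..t, X n s ^ 2
        = ∑' n, x n ^ 2 + 2 * ∑' n, ∫ s in (0 : ℝ)..t, f n s * X n s := by
    intro t ht
    obtain ⟨T, hT⟩ : ∃ T, T = t + 1 := ⟨_, rfl⟩
    have hT0 : 0 < T := by linarith
    obtain ⟨D, hD0, h1, h2, h3, -⟩ := hB T hT0
    obtain ⟨R, hR0, -, -, -, -, -, hΦ, -⟩ := had.bounds hT0.le
    exact energy_eq hs0 hs hD0 hX (fun n => had.fcont hT0.le n) h1 h2 h3 hΦ ⟨ht, by linarith⟩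
  refine ⟨X, ⟨hXS, hXH, hXV, fun t ht => (heq t ht).le⟩, heq, ?_, ?_, ?_⟩
  · intro T hT
    obtain ⟨D, hD0, -, -, -, h4, -⟩ := hB T hT
    refine ⟨D, fun t ht => ?_⟩
    simp only [hfield]
    exact tsum_bd (fun n => sq_nonneg _) (h4 t ht)
  · intro T hT
    obtain ⟨D, hD0, -, -, -, -, h5⟩ := hB T hT
    simp only [hfield]
    exact hl2 hT (hcV T hT) h5
  · intro Z hZ n t ht
    rcases ht.eq_or_lt with h | h
    · rw [← h, hZ.solves.init, hX.init]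
    · obtain ⟨D, hD0, h1, h2, h3, -⟩ := hB t h
      obtain ⟨R, hR0, -, -, -, -, -, hΦ, -⟩ := had.bounds h.le
      obtain ⟨C, hC⟩ := hZ.linftyH t h
      have hZS : SolF β ν x f Z := ⟨hZ.solves.init, fun n t ht => by
        rw [← hfield]
        exact hZ.solves.eqn n t ht⟩
      exact unique_lh hν hs0 hs h hD0 hX hZS (fun n => had.fcont h.le n) hx2 h1 h3 hΦ
        (fun r hr => (hC r hr).1) (hZ.l2V t h).2 (fun r hr => hZ.energy r hr.1) n

end Pool.Agent.Results.MP_fd8964_an.ForcedDyadic
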